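import Mathlib
import Pool.Agent.H6R3.BW.Transfer

/-!
MP_36ff57_co.  Let `0 < θ ≤ 1`, and let `G` have at most `q` vertices (`q = n` is the case of the
conjecture) and all degrees at most `(1 - θ) (q - 1)`.  Then every edge with an endpoint `u` of
degree at most `θ ^ 2 exp (-12 / (11 θ)) (q - 1) / 12` satisfies the Bartels-Welsh inequality.
-/

set_option autoImplicit false

namespace Pool.Agent.Results.MP_36ff57_co.BoundedAwayFromOrder

theorem result (V : Type) [Fintype V] (G : SimpleGraph V) (q : ℕ)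
    (hq : Fintype.card V ≤ q) (θ : ℝ) (hθ : 0 < θ) (hθ1 : θ ≤ 1)
    (hD : ∀ z : V, ((G.neighborSet z).ncard : ℝ) ≤ (1 - θ) * ((q : ℝ) - 1))
    (u v : V) (huv : G.Adj u v)
    (hu : 12 * ((G.neighborSet u).ncard : ℝ) * Real.exp (12 / (11 * θ)) ≤
      θ ^ 2 * ((q : ℝ) - 1)) :
    (Nat.card (G.Coloring (Fin (q - 1))) : ℝ) / (Nat.card (G.Coloring (Fin q)) : ℝ) ≤
      (Nat.card ((G.deleteEdges {s(u, v)}).Coloring (Fin (q - 1))) : ℝ) /
        (Nat.card ((G.deleteEdges {s(u, v)}).Coloring (Fin q)) : ℝ) :=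
  Pool.Agent.H6R3.BW.final_dense G q hq θ hθ hθ1 hD u v huv hu

end Pool.Agent.Results.MP_36ff57_co.BoundedAwayFromOrder
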