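import Mathlib
import Pool.Agent.H6R3.BW.Transfer

/-!
MP_36ff57_co.  Let `G` have at most `q` vertices (`q = n` is the case of the conjecture) and maximum
degree at most `D`.  If `5 deg u + 2 D ≤ q`, then every edge at `u` satisfies the Bartels-Welsh
inequality.  So it holds for every edge if all degrees are at most `n / 7`, and for some edge if
`Δ < n / 2` and some vertex which is not isolated has degree at most `(n - 2 Δ) / 5`.
-/

set_option autoImplicit false

namespace Pool.Agent.Results.MP_36ff57_co.HalfDegree

theorem result (V : Type) [Fintype V] (G : SimpleGraph V) (q D : ℕ)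
    (hq : Fintype.card V ≤ q) (hD : ∀ z : V, (G.neighborSet z).ncard ≤ D)
    (u v : V) (huv : G.Adj u v) (hu : 5 * (G.neighborSet u).ncard + 2 * D ≤ q) :
    (Nat.card (G.Coloring (Fin (q - 1))) : ℝ) / (Nat.card (G.Coloring (Fin q)) : ℝ) ≤
      (Nat.card ((G.deleteEdges {s(u, v)}).Coloring (Fin (q - 1))) : ℝ) /
        (Nat.card ((G.deleteEdges {s(u, v)}).Coloring (Fin q)) : ℝ) :=
  Pool.Agent.H6R3.BW.final_half G q D hq hD u v huv hu

end Pool.Agent.Results.MP_36ff57_co.HalfDegree
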