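import Mathlib
import Pool.Agent.H6R3.BW.Transfer

/-!
MP_36ff57_co.  A local condition on one edge, with no condition on the rest of the graph.  Let `G`
have at most `q` vertices (`q = n` is the case of the conjecture) and let `uv` be an edge with
`deg u, deg v ≤ d` such that all the neighbours of `u` and of `v`, with the possible exception of
one vertex `h` of any degree, have degree at most `D`.  If `3 d ^ 2 + D ≤ q`, then `uv` satisfies
the Bartels-Welsh inequality.
-/

set_option autoImplicit false

namespace Pool.Agent.Results.MP_36ff57_co.SmallEndpoints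

theorem result (V : Type) [Fintype V] (G : SimpleGraph V) (q d D : ℕ)
    (hq : Fintype.card V ≤ q) (u v h : V) (huv : G.Adj u v)
    (hu : (G.neighborSet u).ncard ≤ d) (hv : (G.neighborSet v).ncard ≤ d)
    (hD : ∀ z : V, (G.Adj u z ∨ G.Adj v z) → z ≠ h → (G.neighborSet z).ncard ≤ D)
    (hcond : 3 * d ^ 2 + D ≤ q) :
    (Nat.card (G.Coloring (Fin (q - 1))) : ℝ) / (Nat.card (G.Coloring (Fin q)) : ℝ) ≤
      (Nat.card ((G.deleteEdges {s(u, v)}).Coloring (Fin (q - 1))) : ℝ) /
        (Nat.card ((G.deleteEdges {s(u, v)}).Coloring (Fin q)) : ℝ) :=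
  Pool.Agent.H6R3.BW.final_local G q d D hq u v h huv hu hv hD hcond

end Pool.Agent.Results.MP_36ff57_co.SmallEndpoints
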